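import Pool.Agent.Lib.MP_bc213e_ag.TE.N.Cvx

/-! Splitting an exponent proportionally, and cancellation for convex bodies. -/

namespace Pool.Agent.Lib.MP_bc213e_ag.DD

variable {b : ℕ} {G : ℕ → Set (Fin b →₀ ℕ)}

/-- An exponent of level `a₀ + N a₁` is split into `N` exponents of level `a₁` and one of level
`a₀`, with room. -/
theorem lowE (hG : Gam G) {F₀ F₁ : Set (Fin b →₀ ℕ)} (d₀ : ∀ α β, α ≤ β → β ∈ F₀ → α ∈ F₀)
    (d₁ : ∀ α β, α ≤ β → β ∈ F₁ → α ∈ F₁) {a₀ a₁ N s : ℕ} (h₀ : 0 < a₀) (h₁ : 0 < a₁)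
    (hs : 0 < s) (l₀ : LowD G F₀ a₀ (2 * s + 1)) (l₁ : LowD G F₁ a₁ (2 * s + 1))
    (hc : InD G fun _ => ((4 * (s + 1) * (3 * N + 2) : ℕ) : ℚ)) {γ : Fin b →₀ ℕ}
    (hγ : InD G fun i => (γ i : ℚ) * (s + 1) / (s * (a₀ + N * a₁ : ℕ))) :
    ∃ β β₀ : Fin b →₀ ℕ, β + 2 • uno b ∈ F₁ ∧ β₀ ∈ F₀ ∧ γ = β₀ + N • β := by
  suffices h : ∃ β : Fin b →₀ ℕ, β + 2 • uno b ∈ F₁ ∧ N • β ≤ γ ∧ γ - N • β ∈ F₀ by
    obtain ⟨β, h1, h2, h3⟩ := h
    exact ⟨β, _, h1, h3, (tsub_add_cancel_of_le h2).symm⟩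
  obtain ⟨a, ha⟩ : ∃ a : ℚ, a = (a₀ + N * a₁ : ℕ) := ⟨_, rfl⟩
  obtain ⟨C, hC⟩ : ∃ C : ℚ, C = 3 * N + 2 := ⟨_, rfl⟩
  have p₀ : (1 : ℚ) ≤ a₀ := by exact_mod_cast h₀
  have p₁ : (1 : ℚ) ≤ a₁ := by exact_mod_cast h₁
  have ps : (1 : ℚ) ≤ s := by exact_mod_cast hs
  have pN : (0 : ℚ) ≤ N := Nat.cast_nonneg N
  have ea : a = a₀ + N * a₁ := by rw [ha]; push_cast; ring
  have pa : 1 ≤ a := by nlinarith
  have pC : 2 ≤ C := by linarith
  rw [← ha] at hγ
  have hy := hγ.boost hG hc (2 * s + 1)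
  obtain ⟨z, hz⟩ : ∃ z : Fin b → ℚ, z = fun i => γ i / a + C := ⟨_, rfl⟩
  have z0 : ∀ i, C ≤ z i := fun i => by
    rw [hz]
    exact le_add_of_nonneg_left (by positivity)
  have z1 : ∀ i, γ i + C ≤ z i * a := fun i => by
    rw [hz, add_mul, div_mul_cancel₀ _ (by positivity)]
    nlinarith
  have hy' : InD G fun i => z i * (2 * s + 2) / (2 * s + 1) := hy.mono fun i => by
    have g0 : (0 : ℚ) ≤ γ i / a := by positivity
    have e1 : (γ i : ℚ) * (s + 1) / (s * a) = γ i / a * (s + 1) / s := by field_simp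
    rw [hz, e1]
    push_cast
    rw [← hC]
    generalize (γ i : ℚ) / a = g at g0
    rw [div_le_div_iff₀ (by positivity) (by positivity)]
    have e2 : g * (s + 1) / s * s = g * (s + 1) := div_mul_cancel₀ _ (by positivity)
    have e3 : g * (2 * s + 2) ^ 2 ≤ g * (s + 1) / s * (2 * s + 1) ^ 2 := by
      rw [div_mul_eq_mul_div, le_div_iff₀ (by positivity)]
      nlinarith [mul_nonneg g0 (show (0 : ℚ) ≤ s + 1 by positivity)]
    nlinarith [mul_nonneg (show (0 : ℚ) ≤ C by linarith) (show (0 : ℚ) ≤ s * (s + 1) by positivity)]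
  have fl : ∀ {F : Set (Fin b →₀ ℕ)} {a' : ℕ}, 0 < a' → LowD G F a' (2 * s + 1) →
      flo (fun i => z i * a') ∈ F := fun {F a'} h l => by
    have := l.flo h (by omega) hy' fun i => by
      have := z0 i
      have : 0 ≤ z i := by linarith
      positivity
    refine (congrArg (fun x => flo x ∈ F) (funext fun i => ?_)).mp this
    push_cast
    field_simp
    ring
  have f1 : ∀ i, 2 ≤ ⌊z i * a₁⌋₊ := fun i => Nat.le_floor (by
    have := z0 i
    push_cast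
    nlinarith)
  refine ⟨Finsupp.equivFunOnFinite.symm fun i => min (⌊z i * a₁⌋₊ - 2) (γ i / N),
    d₁ _ _ (fun i => ?_) (fl h₁ l₁), fun i => ?_, d₀ _ _ (fun i => ?_) (fl h₀ l₀)⟩
  · have := f1 i
    simp only [Finsupp.add_apply, Finsupp.smul_apply, smul_eq_mul, uno_apply, flo_apply,
      Finsupp.equivFunOnFinite_symm_apply_apply]
    omega
  · simp only [Finsupp.smul_apply, smul_eq_mul, Finsupp.equivFunOnFinite_symm_apply_apply]
    exact (Nat.mul_le_mul_left _ (min_le_right _ _)).trans (Nat.mul_div_le _ _)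
  · simp only [Finsupp.tsub_apply, Finsupp.smul_apply, smul_eq_mul, flo_apply,
      Finsupp.equivFunOnFinite_symm_apply_apply]
    have a0 := z0 i
    have a1 := z1 i
    rw [Nat.sub_le_iff_le_add]
    have a2 := Nat.lt_floor_add_one (z i * a₀)
    rcases le_total (⌊z i * a₁⌋₊ - 2) (γ i / N) with h | h
    · rw [min_eq_left h]
      have a3 := Nat.lt_floor_add_one (z i * a₁)
      have a4 : (γ i : ℚ) < ⌊z i * a₀⌋₊ + N * ((⌊z i * a₁⌋₊ - 2 : ℕ) : ℚ) + 1 := by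
        rw [Nat.cast_sub (f1 i)]
        push_cast
        rw [ea] at a1
        nlinarith [mul_le_mul_of_nonneg_left a3.le pN]
      have a5 : γ i < ⌊z i * a₀⌋₊ + N * (⌊z i * a₁⌋₊ - 2) + 1 := by exact_mod_cast a4
      omega
    · rw [min_eq_right h]
      rcases Nat.eq_zero_or_pos N with hN | hN
      · subst hN
        have a4 : (γ i : ℚ) < ⌊z i * a₀⌋₊ + 1 := by
          rw [ea] at a1
          push_cast at a1 hC
          linarith
        have a5 : γ i < ⌊z i * a₀⌋₊ + 1 := by exact_mod_cast a4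
        omega
      · have a4 : (N : ℚ) < ⌊z i * a₀⌋₊ + 1 := by nlinarith
        have a5 : N < ⌊z i * a₀⌋₊ + 1 := by exact_mod_cast a4
        have a6 := Nat.div_add_mod (γ i) N
        have a7 := Nat.mod_lt (γ i) hN
        omega

/-- Cancellation: if `α + κ β` lies in `(a + κ a₁ + ε) D` for all `β` in the bulk of `a₁ D`, then
`α` lies in `(1 + 1 / s) a D`. -/
theorem upD {a : ℕ} (a₁ κ e s : ℕ) (ha : 0 < a) (h₁ : 0 < a₁) : ∃ s' c : ℕ, 0 < s' ∧
    ∀ (G : ℕ → Set (Fin b →₀ ℕ)) (F : Set (Fin b →₀ ℕ)) (α : Fin b →₀ ℕ), Gam G →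
      (∀ α β, α ≤ β → β ∈ F → α ∈ F) → LowD G F a₁ s' → (InD G fun _ => (c : ℚ)) →
      (∀ β, β + 2 • uno b ∈ F →
        InD G fun i => ((α i : ℚ) + κ * β i - e) / (a + κ * a₁ + 1 / (s' + 1))) →
      InD G fun i => (α i : ℚ) * s / ((s + 1) * a) := by
  obtain ⟨s', hs'⟩ : ∃ s', s' = 2 * (s + 1) + s * (1 + 3 * κ * a₁) := ⟨_, rfl⟩
  have s0 : 0 < s' := by omega
  refine ⟨s', (s' + 1) * (e + 6), s0, fun G F α hG Fd low hc step => ?_⟩
  obtain ⟨θ, hθ⟩ : ∃ θ : ℚ, θ = 1 / (s' + 1) := ⟨_, rfl⟩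
  obtain ⟨q, hq⟩ : ∃ q : ℚ, q = s' / (s' + 1) := ⟨_, rfl⟩
  have p1 : (1 : ℚ) ≤ s' := by exact_mod_cast s0
  have pa : (1 : ℚ) ≤ a := by exact_mod_cast ha
  have pa₁ : (1 : ℚ) ≤ a₁ := by exact_mod_cast h₁
  have pκ : (0 : ℚ) ≤ κ := Nat.cast_nonneg κ
  have pe : (0 : ℚ) ≤ e := Nat.cast_nonneg e
  have ps : (0 : ℚ) ≤ s := Nat.cast_nonneg s
  have θ0 : 0 < θ := by rw [hθ]; positivity
  have qθ : q = 1 - θ := by rw [hq, hθ]; field_simp; ring
  have θ2 : θ ≤ 1 / 2 := by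
    rw [hθ]
    gcongr
    linarith
  have q0 : 0 < q := by linarith
  have q1 : q < 1 := by linarith
  have bo : ∀ {x : Fin b → ℚ}, InD G x → InD G fun i => q * x i + (e + 6) := fun {x} hx =>
    (hx.boost hG hc s').mono fun i => le_of_eq (by
      rw [hq]
      push_cast
      field_simp)
  rw [← hθ] at step
  obtain ⟨T, hT⟩ : ∃ T : ℚ, T = a + κ * a₁ + θ := ⟨_, rfl⟩
  rw [← hT] at step
  have κa : (0 : ℚ) ≤ κ * a₁ := by positivity
  have T1 : 1 ≤ T := by linarith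
  have T0 : 0 < T := by linarith
  have st : ∀ y : Fin b → ℚ, InD G y → (∀ i, 0 ≤ y i) →
      InD G fun i => q / T * α i + q ^ 3 * (κ * a₁) / T * y i := fun y hy y0 => by
    have h2 := low.flo h₁ s0 (bo hy) fun i => by have := y0 i; positivity
    obtain ⟨z, hz⟩ : ∃ z : Fin b → ℚ, z = fun i => (q * y i + (e + 6)) * (s' * a₁) / (s' + 1) :=
      ⟨_, rfl⟩
    rw [← hz] at h2
    have z1 : ∀ i, q ^ 2 * a₁ * y i + 3 ≤ z i := fun i => by
      have e1 : z i = (q * y i + (e + 6)) * (q * a₁) := by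
        rw [hz, hq]
        ring
      have e2 : 1 / 2 ≤ q * a₁ := by nlinarith
      rw [e1]
      nlinarith
    have z2 : ∀ i, 2 ≤ ⌊z i⌋₊ := fun i => Nat.le_floor (by
      have := z1 i
      have := y0 i
      have : 0 ≤ q ^ 2 * a₁ * y i := by positivity
      push_cast
      linarith)
    have h3 := step (flo z - 2 • uno b) (by
      rwa [tsub_add_cancel_of_le fun i => by simpa [flo_apply] using z2 i])
    refine (bo h3).mono fun i => ?_
    have e1 : (((flo z - 2 • uno b : Fin b →₀ ℕ) i : ℕ) : ℚ) = ⌊z i⌋₊ - 2 := by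
      simp [flo_apply, Nat.cast_sub (z2 i)]
    have e2 := Nat.lt_floor_add_one (z i)
    have e3 := z1 i
    have e4 : κ * (q ^ 2 * a₁ * y i) ≤ κ * ((⌊z i⌋₊ : ℚ) - 2) := by
      gcongr
      linarith
    have e5 : q * e / T ≤ e := by
      rw [div_le_iff₀ T0]
      nlinarith
    rw [e1]
    calc q / T * α i + q ^ 3 * (κ * a₁) / T * y i
        = q * ((α i + κ * (q ^ 2 * a₁ * y i) - e) / T) + q * e / T := by ring
      _ ≤ _ := by
        gcongr
        linarith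
  obtain ⟨t, ht⟩ : ∃ t : ℚ, t = q ^ 3 * (κ * a₁) / T := ⟨_, rfl⟩
  rw [← ht] at st
  have q3 : q ^ 3 ≤ 1 := pow_le_one₀ q0.le q1.le
  have t0 : 0 ≤ t := by rw [ht]; positivity
  have t1 : t < 1 := by
    rw [ht, div_lt_one T0]
    nlinarith
  obtain ⟨l, hl⟩ : ∃ l : ℚ, l = q / T / (1 - t) := ⟨_, rfl⟩
  have t2 : 0 < 1 - t := by linarith
  have l0 : 0 ≤ l := by rw [hl]; positivity
  have l1 : q / T = l * (1 - t) := by rw [hl, div_mul_cancel₀ _ t2.ne']
  have it : ∀ j : ℕ, InD G fun i => l * (1 - t ^ j) * α i := fun j => by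
    induction j with
    | zero => simpa using InD.zero hG
    | succ j ih =>
      refine (st _ ih fun i => ?_).mono fun i => le_of_eq ?_
      · have : t ^ j ≤ 1 := pow_le_one₀ t0 t1.le
        have : 0 ≤ 1 - t ^ j := by linarith
        positivity
      · rw [l1]
        ring
  obtain ⟨j, hj⟩ := exists_pow_lt_of_lt_one θ0 t1
  refine (it j).mono fun i => ?_
  have key : s / ((s + 1) * a) ≤ l * q := by
    have e1 : l * (T - q ^ 3 * (κ * a₁)) = q := by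
      have : T * t = q ^ 3 * (κ * a₁) := by rw [ht]; field_simp
      have e2 : q = l * (1 - t) * T := by rw [← l1]; field_simp
      rw [← this]
      linarith
    have e3 : θ * (s' + 1) = 1 := by rw [hθ]; field_simp
    have e4 : (s' : ℚ) = 2 * (s + 1) + s * (1 + 3 * κ * a₁) := by exact_mod_cast hs'
    have e5 : 1 - q ^ 3 ≤ 3 * θ := by
      rw [qθ]
      nlinarith [mul_pos θ0 θ0]
    have e6 : T - q ^ 3 * (κ * a₁) ≤ a * (1 + θ * (1 + 3 * (κ * a₁))) := by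
      have := mul_le_mul_of_nonneg_right e5 κa
      have e7 : 0 ≤ θ * (1 + 3 * (κ * a₁)) := by positivity
      nlinarith
    have e8 : s * (1 + θ * (1 + 3 * (κ * a₁))) ≤ q ^ 2 * (s + 1) := by
      have : 1 - 2 * θ ≤ q ^ 2 := by rw [qθ]; nlinarith
      nlinarith
    have e9 : 0 < T - q ^ 3 * (κ * a₁) := by nlinarith
    rw [div_le_iff₀ (by positivity)]
    refine le_of_mul_le_mul_right ?_ e9
    calc s * (T - q ^ 3 * (κ * a₁)) ≤ s * (a * (1 + θ * (1 + 3 * (κ * a₁)))) := by gcongr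
      _ = a * (s * (1 + θ * (1 + 3 * (κ * a₁)))) := by ring
      _ ≤ a * (q ^ 2 * (s + 1)) := by gcongr
      _ = l * (T - q ^ 3 * (κ * a₁)) * (q * ((s + 1) * a)) := by rw [e1]; ring
      _ = _ := by ring
  calc (α i : ℚ) * s / ((s + 1) * a) = s / ((s + 1) * a) * α i := by ring
    _ ≤ l * q * α i := by gcongr
    _ ≤ _ := by
      gcongr
      linarith

end Pool.Agent.Lib.MP_bc213e_ag.DD
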