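import Pool.Agent.Lib.MP_bc213e_ag.TE.LD
import Pool.Agent.Lib.MP_bc213e_ag.TE.G
import Pool.Agent.Lib.MP_bc213e_ag.TE.U1
import Pool.Agent.Lib.MP_bc213e_ag.TE.U2
import Pool.Agent.Lib.MP_bc213e_ag.TE.N.Low
import Pool.Agent.Lib.MP_bc213e_ag.KL.T.Step

/-! Comparison of the spaces of tensors with the spaces of functions. -/

namespace Pool.Agent.Lib.MP_bc213e_ag.DD.Geo

open Filter Module

variable {K M ι : Type} [Field K] [Algebra ℂ K] [Field M] [Algebra ℂ M] [Algebra K M] {n : ℕ}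
  {S : Su K M ι n} {Ω E : Type} [Field Ω] [Algebra ℂ Ω] [Field E] [Algebra ℂ E] [Algebra Ω E]
  [IsScalarTower ℂ Ω E] {b φ : ℕ} (G : Geo S Ω E b φ) [IsScalarTower ℂ K M] [Fintype ι]
  [CharZero E] {k p : ℕ} {j₀ : Fin b}

/-- The semigroup of exponents of slope `μ`. -/
abbrev Gs (μ : ℕ) : ℕ → Set (Fin b →₀ ℕ) := fun k => {α | G.W (k * μ) (k * 1) α ≠ ⊥}

/-- The exponents with all leading coefficients. -/
abbrev Fl (a μ : ℕ) : Set (Fin b →₀ ℕ) := {α | G.W (a * μ) a α = G.R a}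

theorem ev_cube (c : ℕ) : ∀ᶠ μ : ℕ in atTop, InD (G.Gs μ) fun _ => (c : ℚ) := by
  obtain ⟨m₀, h⟩ := G.cube c 1 one_pos
  filter_upwards [eventually_ge_atTop m₀] with μ hμ
  obtain ⟨k₀, h1, h2⟩ := h μ hμ
  exact InD.cube h1 h2

theorem ev_low [IsAlgClosed Ω] (hd : S.d₀ = n - 1) {d : ℕ} (hk : S.VK d) (hb : d + 2 ≤ b) :
    ∃ a₁, 0 < a₁ ∧ ∀ a s, a₁ ≤ a → 0 < s →
      ∀ᶠ μ : ℕ in atTop, LowD (G.Gs μ) (G.Fl a μ) a s := by
  obtain ⟨a₁, h⟩ := G.geo_lowk hd hk hb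
  refine ⟨a₁ + 1, by omega, fun a s ha hs => ?_⟩
  have ht : Tendsto (fun μ : ℕ => a * μ) atTop atTop :=
    tendsto_atTop_mono (fun μ => Nat.le_mul_of_pos_left μ (by omega)) tendsto_id
  filter_upwards [ht.eventually (h a s (by omega) hs)] with μ hμ
  refine lowD_of (G.gam μ 1) (fun α β h hβ => G.full_down h hβ) (by omega) hs
    fun k w hk hw β hβ => hμ k w hk hw β ?_
  simpa only [Gs, Set.mem_ofPred_eq, mul_one, mul_assoc] using hβ

/-- The lower bound for the tensors. -/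
theorem cmp_low [IsAlgClosed Ω] (hd : S.d₀ = n - 1) {d : ℕ} (hk : S.VK d) (hb : d + 2 ≤ b)
    (h : G.Top j₀) {c : Fin p → Fin k} (hfd : ∀ t a, FiniteDimensional ℂ (S.SE c t a)) :
    ∃ a₂, ∀ a, a₂ ≤ a → ∀ s, 0 < s → ∀ᶠ μ : ℕ in atTop,
      finrank ℂ (S.V (a * μ) a) * finrank Ω (G.GT j₀ c a) * s ^ (3 * b) ≤
        finrank ℂ (S.VT c (a * μ) a) * finrank Ω (G.R a) * (s + 1) ^ (3 * b) := by
  obtain ⟨a₁, h₁, hl⟩ := G.ev_low hd hk hb
  obtain ⟨e, he⟩ := G.low_dim h hfd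
  obtain ⟨a₀, h₀⟩ := G.GT_le_MT j₀ c (p * (3 * (a₁ + e)))
  refine ⟨a₀ + a₁ + p * (3 * (a₁ + e)), fun a ha s hs => ?_⟩
  obtain ⟨a', rfl⟩ : ∃ a', a = a' + p * (3 * (a₁ + e)) := ⟨a - p * (3 * (a₁ + e)), by omega⟩
  filter_upwards [G.ev_cube s, G.ev_cube (4 * (s + 1) * (3 * (3 * p) + 2)),
    hl a' (2 * s + 1) (by omega) (by omega), hl (a₁ + e) (2 * s + 1) (by omega) (by omega)]
    with μ c1 c2 l0 l1
  generalize ea : a' + p * (3 * (a₁ + e)) = a
  rcases Nat.eq_zero_or_pos (finrank Ω (G.GT j₀ c a)) with hγ | hγ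
  · simp [hγ]
  let F : Set (Fin b →₀ ℕ) :=
    {γ | finrank Ω (G.GT j₀ c a) ≤ finrank Ω (G.WE j₀ c (a * μ) a (γ + p • uno b))}
  have hF : F.Finite := ((G.WE_finite (j₀ := j₀) hfd (a * μ) a).preimage
    (add_left_injective (p • uno b)).injOn).subset fun γ h1 h2 => by
      have h3 : finrank Ω (G.GT j₀ c a) ≤ _ := h1
      rw [h2, finrank_bot] at h3
      omega
  have low : LowD (G.Gs μ) F a s := fun γ hγ => by
    obtain ⟨β, β₀, h1, h2, rfl⟩ := lowE (N := 3 * p) (G.gam μ 1)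
      (fun α β h hβ => G.full_down h hβ) (fun α β h hβ => G.full_down h hβ) (by omega) (by omega)
      hs l0 l1 c2 (γ := γ) (by rwa [show a' + 3 * p * (a₁ + e) = a by rw [← ea]; ring])
    have h3 := he (a₁ + e) (by omega) _ β h1 _ a' β₀ h2
    have := G.fd_MT j₀ c a' (p * (3 * (a₁ + e)))
    have h4 := (Submodule.finrank_mono (h₀ a' (by omega))).trans h3
    rw [show a' * μ + p * (3 * ((a₁ + e) * μ)) = a * μ by rw [← ea]; ring, ea, smul_add,
      smul_smul, mul_comm p 3, ← add_assoc] at h4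
    exact h4
  have ha0 : 0 < a := by omega
  have e1 := cntD (G.gam μ 1) (A := G.Gs μ a) hF ha0 hs c1 (fun α hα =>
    (InD.of_mem ha0 hα).mono fun i => by
      rw [div_le_div_iff₀ (by positivity) (by positivity)]
      nlinarith [show (0 : ℚ) ≤ α i * a by positivity]) low
  have e3 : F.ncard * finrank Ω (G.GT j₀ c a) ≤ finrank ℂ (S.VT c (a * μ) a) := by
    classical
    refine le_trans ?_ (G.WE_sum_le h hfd (a * μ) a (hF.toFinset.image (· + p • uno b)))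
    rw [Finset.sum_image (add_left_injective (p • uno b)).injOn,
      Set.ncard_eq_toFinset_card _ hF, ← smul_eq_mul]
    exact Finset.card_nsmul_le_sum _ _ _ fun γ h => hF.mem_toFinset.1 h
  rw [← pow_mul, ← pow_mul] at e1
  have e2 : finrank ℂ (S.V (a * μ) a) ≤ (G.Gs μ a).ncard * finrank Ω (G.R a) := by
    simpa only [Gs, mul_one] using G.dim_le (a * μ) a
  calc _ ≤ (G.Gs μ a).ncard * finrank Ω (G.R a) * finrank Ω (G.GT j₀ c a) * s ^ (3 * b) := by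
        gcongr
    _ = (G.Gs μ a).ncard * s ^ (3 * b) * (finrank Ω (G.R a) * finrank Ω (G.GT j₀ c a)) := by ring
    _ ≤ F.ncard * (s + 1) ^ (3 * b) * (finrank Ω (G.R a) * finrank Ω (G.GT j₀ c a)) :=
        Nat.mul_le_mul_right _ e1
    _ = F.ncard * finrank Ω (G.GT j₀ c a) * finrank Ω (G.R a) * (s + 1) ^ (3 * b) := by ring
    _ ≤ _ := by gcongr

/-- The upper bound for the tensors. -/
theorem cmp_up [IsAlgClosed Ω] (hd : S.d₀ = n - 1) {d : ℕ} (hk : S.VK d) (hs : S.Sm d)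
    (hb : d + 2 ≤ b) (h : G.Top j₀) {c : Fin p → Fin k}
    (hfd : ∀ t a, FiniteDimensional ℂ (S.SE c t a)) :
    ∃ a₂, ∀ a, a₂ ≤ a → ∀ s, 0 < s → ∀ᶠ μ : ℕ in atTop,
      finrank ℂ (S.VT c (a * μ) a) * finrank Ω (G.R a) * s ^ (3 * b) ≤
        finrank ℂ (S.V (a * μ) a) * finrank Ω (G.GT j₀ c a) * (s + 1) ^ (3 * b) := by
  obtain ⟨a₁, h₁, hl⟩ := G.ev_low hd hk hb
  obtain ⟨e, he⟩ := G.diag (k := 1) h
  refine ⟨a₁, fun a ha s h0 => ?_⟩
  have ha0 : 0 < a := by omega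
  obtain ⟨s', c', s0, up⟩ :=
    upD (b := b) (a₁ + e) (3 * (p * (n - 1))) p s ha0 (by omega)
  filter_upwards [G.ev_cube s, G.ev_cube c', hl a s ha h0, hl (a₁ + e) s' (by omega) s0,
    eventually_ge_atTop ((s' + 1) * p)] with μ c1 c2 l0 l1 hμ
  have e1 := cntD (G.gam μ 1) (A := {α | G.WE j₀ c (a * μ) a α ≠ ⊥}) (G.full_finite _ _) ha0 h0 c1
    (fun α hα => up _ _ α (G.gam μ 1) (fun α β h hβ => G.full_down h hβ) l1 c2 fun β hβ => by
      obtain ⟨α', h1, h2⟩ := G.up_two h (by omega) (he (a₁ + e) (by omega) _ β hβ 0) hα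
      obtain ⟨T, hT⟩ : ∃ T, T = a + p * (n - 1) * (3 * (a₁ + e)) := ⟨_, rfl⟩
      rw [← hT, show a * μ + p * (n - 1) * (3 * ((a₁ + e) * μ)) = T * μ by rw [hT]; ring] at h2
      have h3 := (G.gam (S.m * (T * μ) + p) (S.m * T)).smul (k := 1) (α := S.m • α')
        (by simpa only [one_mul, Set.mem_ofPred_eq] using h2) (s' + 1)
      refine ⟨(s' + 1) * (S.m * T) + 1, (s' + 1) • S.m • α', by omega, fun h4 =>
        h3 (eq_bot_iff.2 (h4 ▸ G.W_mono (by nlinarith) (by nlinarith) _)), fun i => ?_⟩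
      have h4 : α i + (p * (n - 1) * (3 * β i) + p * (n - 1)) ≤ α' i + p := by simpa using h1 i
      have h5 : (α i : ℚ) + (3 * (p * (n - 1)) : ℕ) * β i - p ≤ α' i := by
        have h6 : α i + 3 * (p * (n - 1)) * β i ≤ α' i + p := by nlinarith
        have h7 : (α i : ℚ) + (3 * (p * (n - 1)) : ℕ) * β i ≤ α' i + p := by exact_mod_cast h6
        linarith
      have h6 : (a : ℚ) + (3 * (p * (n - 1)) : ℕ) * (a₁ + e : ℕ) = T := by
        rw [hT]
        generalize n - 1 = r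
        push_cast
        ring
      have h7 : (1 : ℚ) ≤ S.m := by exact_mod_cast Nat.pos_of_ne_zero S.mpos
      beta_reduce
      rw [h6, div_mul_eq_mul_div, div_le_iff₀ (by positivity)]
      simp only [Finsupp.smul_apply, smul_eq_mul]
      push_cast [-Nat.cast_mul]
      push_cast at h5 ⊢
      calc _ ≤ (α' i : ℚ) * ((s' + 1) * (S.m * T) + S.m) := by gcongr
        _ = _ := by field_simp) l0
  have e2 := G.le_dim (a * μ) a
  have e3 : finrank ℂ (S.VT c (a * μ) a) ≤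
      {α | G.WE j₀ c (a * μ) a α ≠ ⊥}.ncard * finrank Ω (G.GT j₀ c a) := by
    have := G.fd_GT j₀ c a
    have hf := G.WE_finite (j₀ := j₀) hfd (a * μ) a
    rw [← G.WE_sum_eq h hfd _ a hf.toFinset fun α h => by simpa using h,
      Set.ncard_eq_toFinset_card _ hf]
    exact Finset.sum_le_card_nsmul _ _ _ fun α _ =>
      Submodule.finrank_mono (G.WE_le_GT h hs hb c _ a α)
  rw [← pow_mul, ← pow_mul] at e1
  calc _ ≤ {α | G.WE j₀ c (a * μ) a α ≠ ⊥}.ncard * finrank Ω (G.GT j₀ c a) * finrank Ω (G.R a) *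
        s ^ (3 * b) := by gcongr
    _ = {α | G.WE j₀ c (a * μ) a α ≠ ⊥}.ncard * s ^ (3 * b) *
        (finrank Ω (G.R a) * finrank Ω (G.GT j₀ c a)) := by ring
    _ ≤ (G.Fl a μ).ncard * (s + 1) ^ (3 * b) * (finrank Ω (G.R a) * finrank Ω (G.GT j₀ c a)) :=
        Nat.mul_le_mul_right _ e1
    _ = (G.Fl a μ).ncard * finrank Ω (G.R a) * finrank Ω (G.GT j₀ c a) * (s + 1) ^ (3 * b) := by
        ring
    _ ≤ _ := by gcongr

end Pool.Agent.Lib.MP_bc213e_ag.DD.Geo
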