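import Pool.Agent.Lib.MP_bc213e_ag.DN.Comb

/-! The convex body of a graded semigroup of exponents. -/

namespace Pool.Agent.Lib.MP_bc213e_ag.DD

variable {b : ℕ} {G : ℕ → Set (Fin b →₀ ℕ)}

/-- The rational points below the normalised exponents. -/
def InD (G : ℕ → Set (Fin b →₀ ℕ)) (x : Fin b → ℚ) : Prop :=
  ∃ (K : ℕ) (β : Fin b →₀ ℕ), 0 < K ∧ β ∈ G K ∧ ∀ i, x i * K ≤ β i

theorem InD.mono {x y : Fin b → ℚ} (h : InD G x) (hy : ∀ i, y i ≤ x i) : InD G y := by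
  obtain ⟨K, β, h1, h2, h3⟩ := h
  exact ⟨K, β, h1, h2, fun i => (mul_le_mul_of_nonneg_right (hy i) (Nat.cast_nonneg K)).trans (h3 i)⟩

theorem InD.of_mem {K : ℕ} (hK : 0 < K) {β : Fin b →₀ ℕ} (h : β ∈ G K) :
    InD G fun i => (β i : ℚ) / K :=
  ⟨K, β, hK, h, fun i => (div_mul_cancel₀ _ (by positivity)).le⟩

theorem InD.zero (hG : Gam G) : InD G fun _ => 0 := ⟨1, 0, one_pos, hG.zero 1, fun i => by simp⟩

/-- Convexity. -/
theorem InD.mix (hG : Gam G) {x y : Fin b → ℚ} (hx : InD G x) (hy : InD G y) (p q : ℕ)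
    (h : 0 < p + q) : InD G fun i => (p * x i + q * y i) / (p + q) := by
  obtain ⟨K, β, h1, h2, h3⟩ := hx
  obtain ⟨K', β', h1', h2', h3'⟩ := hy
  have h4 := hG.add _ _ _ _ (hG.smul h2 (p * K')) (hG.smul h2' (q * K))
  refine ⟨_, _, ?_, h4, fun i => ?_⟩
  · have : p * K' * K + q * K * K' = (p + q) * (K * K') := by ring
    rw [this]
    positivity
  · have e : ((p : ℚ) + q) ≠ 0 := by exact_mod_cast h.ne'
    have a1 := mul_le_mul_of_nonneg_left (h3 i) (show (0 : ℚ) ≤ p * K' by positivity)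
    have a2 := mul_le_mul_of_nonneg_left (h3' i) (show (0 : ℚ) ≤ q * K by positivity)
    simp only [Finsupp.add_apply, Finsupp.smul_apply, smul_eq_mul]
    push_cast
    calc (p * x i + q * y i) / (p + q) * (p * K' * K + q * K * K' : ℚ)
        = p * K' * (x i * K) + q * K * (y i * K') := by field_simp
      _ ≤ _ := by linarith

theorem InD.cube {c k₀ : ℕ} (hk : 0 < k₀) (h : (c * k₀) • uno b ∈ G k₀) : InD G fun _ => c :=
  ⟨k₀, _, hk, h, fun i => by simp⟩

/-- Mixing with a large cube. -/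
theorem InD.boost (hG : Gam G) {x : Fin b → ℚ} (hx : InD G x) {c : ℚ} (hc : InD G fun _ => c)
    (s : ℕ) : InD G fun i => (s * x i + c) / (s + 1) := by
  simpa using InD.mix hG hx hc s 1 (by omega)

/-- The exponents in `(s / (s + 1)) a D` lie in `F`. -/
def LowD (G : ℕ → Set (Fin b →₀ ℕ)) (F : Set (Fin b →₀ ℕ)) (a s : ℕ) : Prop :=
  ∀ γ : Fin b →₀ ℕ, (InD G fun i => (γ i : ℚ) * (s + 1) / (s * a)) → γ ∈ F

theorem lowD_of (hG : Gam G) {F : Set (Fin b →₀ ℕ)} (Fd : ∀ α β, α ≤ β → β ∈ F → α ∈ F) {a s : ℕ}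
    (ha : 0 < a) (hs : 0 < s) (h : ∀ k w, 0 < k → (s + 1) * k ≤ s * w → ∀ β ∈ G (k * a),
      β.mapRange (· / w) (Nat.zero_div w) ∈ F) : LowD G F a s := by
  rintro γ ⟨K, β, h1, h2, h3⟩
  have h4 := hG.smul h2 (s * a)
  rw [show s * a * K = s * K * a by ring] at h4
  refine Fd _ _ (fun i => ?_) (h (s * K) ((s + 1) * K) (by positivity) (le_of_eq (by ring)) _ h4)
  rw [Finsupp.mapRange_apply, Nat.le_div_iff_mul_le (by positivity), Finsupp.smul_apply,
    smul_eq_mul]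
  have h5 := h3 i
  rw [div_mul_eq_mul_div, div_le_iff₀ (by positivity)] at h5
  have h6 : (γ i : ℚ) * ((s + 1) * K) ≤ s * a * β i := by linarith
  exact_mod_cast h6

/-- The integer point below `ρ y`. -/
noncomputable def flo (x : Fin b → ℚ) : Fin b →₀ ℕ :=
  Finsupp.equivFunOnFinite.symm fun i => ⌊x i⌋₊

theorem flo_apply (x : Fin b → ℚ) (i : Fin b) : flo x i = ⌊x i⌋₊ := rfl

theorem LowD.flo {F : Set (Fin b →₀ ℕ)} {a s : ℕ} (h : LowD G F a s) (ha : 0 < a) (hs : 0 < s)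
    {y : Fin b → ℚ} (hy : InD G y) (h0 : ∀ i, 0 ≤ y i) :
    flo (fun i => y i * (s * a) / (s + 1)) ∈ F := by
  refine h _ (hy.mono fun i => ?_)
  have h1 := h0 i
  have h2 := Nat.floor_le (show 0 ≤ y i * (s * a) / (s + 1 : ℚ) by positivity)
  rw [le_div_iff₀ (by positivity)] at h2
  rw [flo_apply, div_le_iff₀ (by positivity)]
  exact h2

/-- Counting: `A` lies in `((s + 1) / s) a D` and `F` contains the points of `(s / (s + 1)) a D`. -/
theorem cntD (hG : Gam G) {A F : Set (Fin b →₀ ℕ)} (hF : F.Finite) {a s : ℕ} (ha : 0 < a)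
    (hs : 0 < s) (hc : InD G fun _ => (s : ℚ))
    (hA : ∀ α ∈ A, InD G fun i => (α i : ℚ) * s / ((s + 1) * a)) (low : LowD G F a s) :
    A.ncard * (s ^ 3) ^ b ≤ F.ncard * ((s + 1) ^ 3) ^ b := by
  let B : Set (Fin b →₀ ℕ) :=
    {β | β.mapRange (· / (s + 1) ^ 3) (Nat.zero_div _) ∈ F}
  have h2 := Jet.cnt_down (B := B) (w := (s + 1) ^ 3) (by positivity) hF fun β h => h
  have hB : B.Finite := by
    obtain ⟨N, hN⟩ := (hF.image Finsupp.degree).bddAbove
    refine (Jet.cnt_box_fin ((N + 1) * (s + 1) ^ 3)).subset fun β h i => ?_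
    have h3 : _ ≤ N := (Finsupp.le_degree i _).trans (hN ⟨_, h, rfl⟩)
    rw [Finsupp.mapRange_apply] at h3
    exact (Nat.div_lt_iff_lt_mul (by positivity)).1 (Nat.lt_succ_of_le h3)
  have h1 := Jet.cnt_up (A := A) (w := s ^ 3) hB fun α hα r hr => by
    refine low _ (((hA α hα).boost hG hc s).mono fun i => ?_)
    have a1 : (((s ^ 3 * α i + r i) / (s + 1) ^ 3 : ℕ) : ℚ) ≤ (s ^ 3 * α i + s ^ 3) / (s + 1) ^ 3 := by
      refine Nat.cast_div_le.trans ?_
      push_cast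
      gcongr
      exact_mod_cast (hr i).le
    have a2 : (1 : ℚ) ≤ a := by exact_mod_cast ha
    have a3 : (0 : ℚ) < s := by exact_mod_cast hs
    simp only [Finsupp.mapRange_apply, Finsupp.add_apply, Finsupp.smul_apply, smul_eq_mul]
    calc _ ≤ (s ^ 3 * α i + s ^ 3) / (s + 1) ^ 3 * (s + 1) / (s * a : ℚ) := by gcongr
      _ = (s * (α i * s / ((s + 1) * a)) + s * (s / ((s + 1) * a))) / (s + 1) := by field_simp
      _ ≤ _ := by
        have a4 : (s : ℚ) / ((s + 1) * a) ≤ 1 := by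
          rw [div_le_one (by positivity)]
          nlinarith
        gcongr
        nlinarith
  rw [Fintype.card_fin] at h1 h2
  exact h1.trans h2

end Pool.Agent.Lib.MP_bc213e_ag.DD
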